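import Pool.Agent.W528.HB.Stm

/-!
# The digits of `b (c ^ F - 1) / N`
-/

set_option autoImplicit false

namespace Pool.Agent.W563.HB.DI

open Finset

lemma dsum {c : ℕ} (hc : 2 ≤ c) (q e : ℕ) (he : e < c) :
    (Nat.digits c (e + c * q)).sum = e + (Nat.digits c q).sum := by
  by_cases h : e ≠ 0 ∨ q ≠ 0
  · rw [Nat.digits_add c hc e q he h, List.sum_cons]
  · push Not at h
    obtain ⟨rfl, rfl⟩ := h
    simp

lemma step {c N : ℕ} (hc : 2 ≤ c) (hN : 0 < N) (A : ℕ) :
    N * (Nat.digits c ((A * c) / N)).sum + (A * c) % N =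
      N * (Nat.digits c (A / N)).sum + c * (A % N) := by
  have h1 : A * c = (A % N) * c + N * ((A / N) * c) := by
    conv_lhs => rw [← Nat.mod_add_div A N]
    ring
  have h2 : (A * c) / N = ((A % N) * c) / N + c * (A / N) := by
    rw [h1, Nat.add_mul_div_left _ _ hN]
    rw [mul_comm c]
  have h5 : (A * c) % N = ((A % N) * c) % N := by
    rw [h1, Nat.add_mul_mod_self_left]
  have h6 : ((A % N) * c) / N < c := by
    rw [Nat.div_lt_iff_lt_mul hN, mul_comm c]
    exact Nat.mul_lt_mul_of_pos_right (Nat.mod_lt _ hN) (by omega)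
  rw [h2, dsum hc _ _ h6, h5, mul_add]
  have h7 := Nat.div_add_mod ((A % N) * c) N
  rw [mul_comm c (A % N)]
  omega

theorem main : Pool.Agent.W528.HB.DI := by
  intro c N F hc hdvd hF b hb
  have hN : 0 < N := by omega
  have key : ∀ s : ℕ, N * (Nat.digits c ((b * c ^ s) / N)).sum + (b * c ^ s) % N =
      (c - 1) * ∑ t ∈ range s, (b * c ^ t) % N + b := by
    intro s
    induction s with
    | zero =>
      simp [Nat.div_eq_of_lt hb, Nat.mod_eq_of_lt hb]
    | succ s ih =>
      have h1 := step hc hN (b * c ^ s)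
      rw [mul_assoc, ← pow_succ] at h1
      rw [h1, sum_range_succ, mul_add]
      obtain ⟨d, rfl⟩ : ∃ d, c = d + 1 := ⟨c - 1, by omega⟩
      simp only [Nat.add_sub_cancel] at ih ⊢
      rw [add_mul, one_mul]
      omega
  obtain ⟨u, hu⟩ := hdvd
  have h1 := key F
  have hpos : 0 < c ^ F := Nat.pow_pos (by omega)
  have h2 : b * c ^ F = b + N * (b * u) := by
    have h3 : c ^ F = N * u + 1 := by omega
    rw [h3]
    ring
  have h4 : (b * c ^ F) / N = b * u := by
    rw [h2, Nat.add_mul_div_left _ _ hN, Nat.div_eq_of_lt hb, zero_add]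
  have h5 : (b * c ^ F) % N = b := by
    rw [h2, Nat.add_mul_mod_self_left, Nat.mod_eq_of_lt hb]
  rw [h4, h5] at h1
  have h6 : (c ^ F - 1) / N = u := by
    rw [hu, Nat.mul_div_cancel_left _ hN]
  rw [h6]
  omega

end Pool.Agent.W563.HB.DI
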